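import Mathlib
import Pool.Agent.H892.KT.Stm

/-!
# Refining the atlas on a compact surface
-/

set_option autoImplicit false

open Filter Topology Set Uniformity
open scoped Manifold ContDiff

namespace Pool.Agent.H790.KT

open Pool.Agent.H892.KT

/-- A cover of a compact Hausdorff locally connected space by small connected open sets. -/
theorem cover (X : Type) [TopologicalSpace X] [T2Space X] [CompactSpace X]
    [LocallyConnectedSpace X] (ι : Type) (S : ι → Set X) (hS : ∀ i, IsOpen (S i))
    (hc : ∀ x, ∃ i, x ∈ S i) :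
    ∃ (c : X → ι) (N : X → Set X), (∀ x, IsOpen (N x)) ∧ (∀ x, x ∈ N x) ∧
      (∀ x, IsPreconnected (N x)) ∧ (∀ x, N x ⊆ S (c x)) ∧
      ∀ x y, (N x ∩ N y).Nonempty → N y ⊆ S (c x) := by
  let _ : UniformSpace X := uniformSpaceOfCompactR1
  obtain ⟨E, hE, hball⟩ := lebesgue_number_lemma (isCompact_univ (X := X)) hS
    (fun x _ => mem_iUnion.2 (hc x))
  choose c hcb using fun x => hball x (mem_univ x)
  obtain ⟨W, hW, hWs, hWE⟩ := comp_comp_symm_mem_uniformity_sets hE
  have hbasis : ∀ x : X, ∃ N : Set X, (IsOpen N ∧ x ∈ N ∧ IsConnected N) ∧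
      N ⊆ UniformSpace.ball x W := fun x =>
    (LocallyConnectedSpace.open_connected_basis x).mem_iff.1 (UniformSpace.ball_mem_nhds x hW)
  choose N hN hNW using hbasis
  have hWmem : ∀ x y, y ∈ N x → (x, y) ∈ W := fun x y hy => hNW x hy
  have key : ∀ x y z w, (x, y) ∈ W → (y, z) ∈ W → (z, w) ∈ W → w ∈ S (c x) := by
    intro x y z w h1 h2 h3
    apply hcb x
    apply hWE
    exact ⟨z, ⟨y, h1, h2⟩, h3⟩
  refine ⟨c, N, fun x => (hN x).1, fun x => (hN x).2.1, fun x => (hN x).2.2.isPreconnected,
    fun x y hy => ?_, fun x y hxy w hw => ?_⟩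
  · exact key x x x y (refl_mem_uniformity hW) (refl_mem_uniformity hW) (hWmem x y hy)
  · obtain ⟨z, hz1, hz2⟩ := hxy
    have h2 : (z, y) ∈ W := hWs.symm _ _ (hWmem y z hz2)
    exact key x z y w (hWmem x z hz1) h2 (hWmem y w hw)

theorem t_REFINE (h1 : S_CONN) (h2 : S_AUT) : S_REFINE := by
  intro X _ _ _ _ _ A hA
  obtain ⟨hA1, hA2, hA3⟩ := hA
  have : LocallyConnectedSpace X := ChartedSpace.locallyConnectedSpace (ℂ × ℂ) X
  obtain ⟨c, N, hNo, hxN, hNc, hNs, hNN⟩ := cover X {e : OpenPartialHomeomorph X (ℂ × ℂ) // e ∈ A}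
    (fun e => e.1.source) (fun e => e.1.open_source) (fun x => by
      obtain ⟨e, he, hx⟩ := hA2 x
      exact ⟨⟨e, he⟩, hx⟩)
  refine ⟨range fun x => (c x).1.restr (N x), ?_, ?_, ?_⟩
  · rintro _ ⟨x, rfl⟩
    exact restr_mem_maximalAtlas _ (hA1 _ (c x).2) (hNo x)
  · intro x
    refine ⟨_, ⟨x, rfl⟩, ?_⟩
    rw [OpenPartialHomeomorph.restr_source' _ _ (hNo x)]
    exact ⟨hNs x (hxN x), hxN x⟩
  · rintro _ ⟨x, rfl⟩ _ ⟨y, rfl⟩
    obtain ⟨e, he⟩ : ∃ e : OpenPartialHomeomorph X (ℂ × ℂ), e = (c x).1 := ⟨_, rfl⟩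
    obtain ⟨e', he'⟩ : ∃ e' : OpenPartialHomeomorph X (ℂ × ℂ), e' = (c y).1 := ⟨_, rfl⟩
    have heA : e ∈ A := he ▸ (c x).2
    have heA' : e' ∈ A := he' ▸ (c y).2
    have hx1 : N x ⊆ e.source := he ▸ hNs x
    have hy1 : N y ⊆ e'.source := he' ▸ hNs y
    have hs : (e.restr (N x)).source = N x := by
      rw [OpenPartialHomeomorph.restr_source' _ _ (hNo x)]
      exact inter_eq_self_of_subset_right hx1
    have hs' : (e'.restr (N y)).source = N y := by
      rw [OpenPartialHomeomorph.restr_source' _ _ (hNo y)]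
      exact inter_eq_self_of_subset_right hy1
    change ∃ Φ : RatField ≃ₐ[ℂ] RatField,
      Restricts Φ (((c x).1.restr (N x)).symm.trans ((c y).1.restr (N y)))
        (((c x).1.restr (N x)).symm.trans ((c y).1.restr (N y))).source
    rw [← he, ← he']
    by_cases hne : (N x ∩ N y).Nonempty
    swap
    · refine ⟨AlgEquiv.refl, ?_⟩
      have hemp : ((e.restr (N x)).symm.trans (e'.restr (N y))).source = ∅ := by
        rw [eq_empty_iff_forall_notMem]
        intro p hp
        rw [OpenPartialHomeomorph.trans_source] at hp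
        obtain ⟨hp1, hp2⟩ := hp
        apply hne
        refine ⟨(e.restr (N x)).symm p, ?_, ?_⟩
        · rw [← hs]
          exact (e.restr (N x)).map_target hp1
        · have hp3 : (e.restr (N x)).symm p ∈ (e'.restr (N y)).source := hp2
          rwa [hs'] at hp3
      rw [hemp]
      exact fun P Q => ⟨fun _ p hp => absurd hp (notMem_empty p),
        fun _ p hp => absurd hp (notMem_empty p)⟩
    have hsub : N x ⊆ e'.source := by
      have h3 : (N y ∩ N x).Nonempty := by rwa [inter_comm]
      exact he' ▸ hNN y x h3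
    -- the transition
    obtain ⟨t, ht⟩ : ∃ t : OpenPartialHomeomorph (ℂ × ℂ) (ℂ × ℂ),
        t = (e.restr (N x)).symm.trans e' := ⟨_, rfl⟩
    have htf : ∀ p, t p = (e.symm.trans e') p := fun p => by rw [ht]; rfl
    have htg : ∀ p, t.symm p = (e'.symm.trans e) p := fun p => by rw [ht]; rfl
    have hts : t.source = (e.restr (N x)).target := by
      rw [ht, OpenPartialHomeomorph.trans_source]
      refine inter_eq_self_of_subset_left fun p hp => ?_
      have h3 : (e.restr (N x)).symm p ∈ (e.restr (N x)).source :=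
        (e.restr (N x)).map_target hp
      rw [hs] at h3
      exact hsub h3
    have htc : IsPreconnected t.source := by
      rw [hts, ← (e.restr (N x)).image_source_eq_target, hs]
      refine (hNc x).image _ ?_
      have h3 := (e.restr (N x)).continuousOn
      rwa [hs] at h3
    have htc' : IsPreconnected t.target := by
      rw [← t.image_source_eq_target]
      exact htc.image _ t.continuousOn
    have hmem : ∀ p ∈ t.source, e.symm p ∈ N x ∧ p ∈ e.target := by
      intro p hp
      rw [hts] at hp
      have h3 : (e.restr (N x)).symm p ∈ (e.restr (N x)).source :=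
        (e.restr (N x)).map_target hp
      rw [hs] at h3
      refine ⟨h3, ?_⟩
      have h4 := (e.restr (N x)).right_inv hp
      have h5 : e (e.symm p) = p := h4
      rw [← h5]
      exact e.map_source (hx1 h3)
    have hR1 : RatOn t t.source := by
      refine h1 _ _ t.open_source htc t.continuousOn fun p hp => ?_
      obtain ⟨h3, h4⟩ := hmem p hp
      have h5 : p ∈ (e.symm.trans e').source := by
        rw [OpenPartialHomeomorph.trans_source]
        exact ⟨h4, hsub h3⟩
      have h6 := hA3 e heA e' heA' p h5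
      have h7 : (t : ℂ × ℂ → ℂ × ℂ) = (e.symm.trans e') := funext htf
      rw [h7]
      exact h6
    have hR2 : RatOn t.symm t.target := by
      refine h1 _ _ t.open_target htc' t.symm.continuousOn fun p hp => ?_
      have hp1 : t.symm p ∈ t.source := t.map_target hp
      obtain ⟨h3, h4⟩ := hmem _ hp1
      -- p = e' (e.symm (t.symm p))
      have h5 : t (t.symm p) = p := t.right_inv hp
      have h6 : e' (e.symm (t.symm p)) = p := (htf (t.symm p)).symm.trans h5
      have h7 : e.symm (t.symm p) ∈ e'.source := hsub h3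
      have h8 : p ∈ e'.target := h6 ▸ e'.map_source h7
      have h9 : e'.symm p = e.symm (t.symm p) := by
        rw [← e'.left_inv h7, h6]
      have h10 : p ∈ (e'.symm.trans e).source := by
        rw [OpenPartialHomeomorph.trans_source]
        refine ⟨h8, ?_⟩
        change e'.symm p ∈ e.source
        rw [h9]
        exact hx1 h3
      have h11 := hA3 e' heA' e heA p h10
      have h12 : (t.symm : ℂ × ℂ → ℂ × ℂ) = (e'.symm.trans e) := funext htg
      rw [h12]
      exact h11
    have htne : t.source.Nonempty := by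
      obtain ⟨z, hz, -⟩ := hne
      refine ⟨(e.restr (N x)) z, ?_⟩
      rw [hts]
      apply (e.restr (N x)).map_source
      rw [hs]
      exact hz
    obtain ⟨Φ, hΦ⟩ := h2 t htne hR1 hR2
    refine ⟨Φ, fun P Q => ⟨fun hPQ p hp => ?_, fun hPQ p hp => ?_⟩⟩
    · have hp1 : p ∈ t.source := by
        rw [hts]
        rw [OpenPartialHomeomorph.trans_source] at hp
        exact hp.1
      have h3 := (hΦ P Q).1 hPQ p hp1
      rw [htf] at h3
      exact h3
    · have hp1 : p ∈ t.source := by
        rw [hts]
        rw [OpenPartialHomeomorph.trans_source] at hp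
        exact hp.1
      have h3 := (hΦ P Q).2 hPQ p hp1
      rw [htf] at h3
      exact h3

end Pool.Agent.H790.KT
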